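import Pool.Agent.Lib.MP_a4658c_nt.KL.Data

/-!
MP_a4658c_nt, counting the integers whose Kakutani orbit contains a given number: the certificate for
the classes 3 mod 5.
-/

set_option autoImplicit false
set_option maxRecDepth 100000

namespace Pool.Agent.Lib.MP_a4658c_nt.KL

theorem cert3_0 : chk (one 15625 78125 65536 tb0 tb1 tb1 tb0 LA3 LB3 3) 11 0 = true := by
  decide +kernel

theorem cert3_1 : chk (one 15625 78125 65536 tb0 tb1 tb1 tb0 LA3 LB3 3) 11 2048 = true := by
  decide +kernel

theorem cert3_2 : chk (one 15625 78125 65536 tb0 tb1 tb1 tb0 LA3 LB3 3) 11 4096 = true := by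
  decide +kernel

theorem cert3_3 : chk (one 15625 78125 65536 tb0 tb1 tb1 tb0 LA3 LB3 3) 11 6144 = true := by
  decide +kernel

theorem cert3_4 : chk (one 15625 78125 65536 tb0 tb1 tb1 tb0 LA3 LB3 3) 11 8192 = true := by
  decide +kernel

theorem cert3_5 : chk (one 15625 78125 65536 tb0 tb1 tb1 tb0 LA3 LB3 3) 11 10240 = true := by
  decide +kernel

theorem cert3_6 : chk (one 15625 78125 65536 tb0 tb1 tb1 tb0 LA3 LB3 3) 11 12288 = true := by
  decide +kernel

theorem cert3_7 : chk (one 15625 78125 65536 tb0 tb1 tb1 tb0 LA3 LB3 3) 11 14336 = true := by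
  decide +kernel

theorem pos3_0 : chk (pos tb0 3) 11 0 = true := by
  decide +kernel

theorem pos3_0' : chk (pos tb0 3) 11 1077 = true := by
  decide +kernel

theorem pos3_1 : chk (pos tb1 3) 11 0 = true := by
  decide +kernel

theorem pos3_1' : chk (pos tb1 3) 11 1077 = true := by
  decide +kernel

end Pool.Agent.Lib.MP_a4658c_nt.KL
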