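import Pool.Agent.Lib.MP_a4658c_nt.KL.Data

/-!
MP_a4658c_nt, counting the integers whose Kakutani orbit contains a given number: the certificate for
the classes 4 mod 5.
-/

set_option autoImplicit false
set_option maxRecDepth 100000

namespace Pool.Agent.Lib.MP_a4658c_nt.KL

theorem cert4_0 : chk (one 15625 78125 65536 tb0 tb1 tb0 tb1 LA4 LB4 4) 11 0 = true := by
  decide +kernel

theorem cert4_1 : chk (one 15625 78125 65536 tb0 tb1 tb0 tb1 LA4 LB4 4) 11 2048 = true := by
  decide +kernel

theorem cert4_2 : chk (one 15625 78125 65536 tb0 tb1 tb0 tb1 LA4 LB4 4) 11 4096 = true := by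
  decide +kernel

theorem cert4_3 : chk (one 15625 78125 65536 tb0 tb1 tb0 tb1 LA4 LB4 4) 11 6144 = true := by
  decide +kernel

theorem cert4_4 : chk (one 15625 78125 65536 tb0 tb1 tb0 tb1 LA4 LB4 4) 11 8192 = true := by
  decide +kernel

theorem cert4_5 : chk (one 15625 78125 65536 tb0 tb1 tb0 tb1 LA4 LB4 4) 11 10240 = true := by
  decide +kernel

theorem cert4_6 : chk (one 15625 78125 65536 tb0 tb1 tb0 tb1 LA4 LB4 4) 11 12288 = true := by
  decide +kernel

theorem cert4_7 : chk (one 15625 78125 65536 tb0 tb1 tb0 tb1 LA4 LB4 4) 11 14336 = true := by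
  decide +kernel

theorem pos4_0 : chk (pos tb0 4) 11 0 = true := by
  decide +kernel

theorem pos4_0' : chk (pos tb0 4) 11 1077 = true := by
  decide +kernel

theorem pos4_1 : chk (pos tb1 4) 11 0 = true := by
  decide +kernel

theorem pos4_1' : chk (pos tb1 4) 11 1077 = true := by
  decide +kernel

end Pool.Agent.Lib.MP_a4658c_nt.KL
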