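import Pool.Agent.Lib.MP_a4658c_nt.KL.Tree

/-!
MP_a4658c_nt, counting the integers whose Kakutani orbit contains a given number: the stopped tree.
-/

set_option autoImplicit false

open Filter Finset

namespace Pool.Agent.Lib.MP_a4658c_nt.KL

/-- the child of `v` with the exponents `p` -/
def cv (p : ℕ × ℕ) (v : ℕ) : ℕ := (2 ^ p.1 * 3 ^ p.2 * v - 1) / 5

/-- the exponents in `S` that give a child of `v` prime to 30 -/
def ch (S : Finset (ℕ × ℕ)) (v : ℕ) : Finset (ℕ × ℕ) :=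
  S.filter (fun p => 5 * cv p v + 1 = 2 ^ p.1 * 3 ^ p.2 * v ∧ Nat.Coprime (cv p v) 30)

theorem pow_inj {a b a' b' v : ℕ} (hv : v ≠ 0) (h : 2 ^ a * 3 ^ b * v = 2 ^ a' * 3 ^ b' * v) :
    a = a' ∧ b = b' := by
  have h1 : 2 ^ a * 3 ^ b = 2 ^ a' * 3 ^ b' := Nat.eq_of_mul_eq_mul_right (Nat.pos_of_ne_zero hv) h
  have e : ∀ x y : ℕ, (2 ^ x * 3 ^ y : ℕ).factorization 2 = x ∧
      (2 ^ x * 3 ^ y : ℕ).factorization 3 = y := by
    intro x y
    have hx : (2 ^ x : ℕ) ≠ 0 := by positivity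
    have hy : (3 ^ y : ℕ) ≠ 0 := by positivity
    rw [Nat.factorization_mul hx hy, Finsupp.add_apply, Finsupp.add_apply, Nat.factorization_pow,
      Nat.factorization_pow, Finsupp.smul_apply, Finsupp.smul_apply, Finsupp.smul_apply,
      Finsupp.smul_apply, Nat.prime_two.factorization_self, Nat.prime_three.factorization_self,
      Nat.factorization_eq_zero_of_not_dvd (by norm_num : ¬ 2 ∣ 3),
      Nat.factorization_eq_zero_of_not_dvd (by norm_num : ¬ 3 ∣ 2)]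
    simp
  have h2 := e a b
  have h3 := e a' b'
  rw [h1] at h2
  exact ⟨h2.1.symm.trans h3.1, h2.2.symm.trans h3.2⟩

theorem count_step (γ : ℝ) (hγ : 0 < γ) (c : ℕ → ℝ) (S : Finset (ℕ × ℕ)) (N : ℕ)
    (hc0 : ∀ v, 0 ≤ c v) (hc1 : ∀ v, c v ≤ 1)
    (hS : ∀ p ∈ S, 2 ^ p.1 * 3 ^ p.2 ≤ N)
    (h : ∀ v, Nat.Coprime v 30 →
      c v ≤ ∑ p ∈ ch S v, (5 / (2 ^ p.1 * 3 ^ p.2 : ℝ)) ^ γ * c (cv p v))
    {m u m1 : ℕ} (hu : Nat.Coprime u 30) (hum : Reach u m) (hu1 : acc u = m1)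
    (hu2 : ∀ d : ℕ, acc^[d] m1 ≠ u) (Y : ℕ) (hY : u < Y) :
    c u * (u : ℝ) ^ (-γ) * (Y : ℝ) ^ γ ≤
      ({n : ℕ | 1 ≤ n ∧ n ≤ N * Y ∧ Reach n m}.ncard : ℝ) := by
  classical
  have hY0 : 0 < Y := by omega
  set φ : ℕ → ℝ := fun v => c v * (v : ℝ) ^ (-γ) with hφ
  have hφ0 : ∀ v, 0 ≤ φ v := fun v => mul_nonneg (hc0 v) (Real.rpow_nonneg (Nat.cast_nonneg v) _)
  -- the vertices below Y
  set V : Finset ℕ := (Finset.range Y).filter (fun v => Nat.Coprime v 30 ∧ Reach v u ∧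
    ∃ d, acc^[d] v = u) with hV
  have huV : u ∈ V := by
    rw [hV, Finset.mem_filter, Finset.mem_range]
    exact ⟨hY, hu, Reach.refl u, 0, rfl⟩
  have hVcop : ∀ v ∈ V, Nat.Coprime v 30 := fun v hv => ((Finset.mem_filter.1 hv).2).1
  have hVlt : ∀ v ∈ V, v < Y := fun v hv => Finset.mem_range.1 (Finset.mem_filter.1 hv).1
  have hpos : ∀ v : ℕ, Nat.Coprime v 30 → 0 < v := by
    intro v hv
    rcases Nat.eq_zero_or_pos v with h0 | h0
    · exfalso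
      have := (not_dvd_of_coprime hv).1
      exact this (h0 ▸ dvd_zero 2)
    · exact h0
  -- children
  have hchild : ∀ v ∈ V, ∀ p ∈ ch S v, acc (cv p v) = v := by
    intro v hv p hp
    have hc := not_dvd_of_coprime (hVcop v hv)
    exact acc_eq hc.1 hc.2.1 ((Finset.mem_filter.1 hp).2).1
  have hreachV : ∀ v ∈ V, ∀ p ∈ ch S v, Reach (cv p v) u := by
    intro v hv p hp
    have hc := not_dvd_of_coprime (hVcop v hv)
    have hp' := (Finset.mem_filter.1 hp).2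
    have hw := not_dvd_of_coprime hp'.2
    exact (reach_child hw.1 hw.2.1 hc.1 hp'.1).trans ((Finset.mem_filter.1 hv).2).2.1
  have hchildV : ∀ v ∈ V, ∀ p ∈ ch S v, cv p v < Y → cv p v ∈ V := by
    intro v hv p hp hlt
    obtain ⟨d, hd⟩ := ((Finset.mem_filter.1 hv).2).2.2
    rw [hV, Finset.mem_filter, Finset.mem_range]
    refine ⟨hlt, ((Finset.mem_filter.1 hp).2).2, hreachV v hv p hp, d + 1, ?_⟩
    rw [Function.iterate_succ_apply, hchild v hv p hp, hd]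
  have hchildu : ∀ v ∈ V, ∀ p ∈ ch S v, cv p v ≠ u := by
    intro v hv p hp he
    have h1 := hchild v hv p hp
    rw [he, hu1] at h1
    obtain ⟨d, hd⟩ := ((Finset.mem_filter.1 hv).2).2.2
    rw [← h1] at hd
    exact hu2 d hd
  -- the weights
  have hw : ∀ v ∈ V, φ v ≤ ∑ p ∈ ch S v, φ (cv p v) := by
    intro v hv
    have hv0 : (0 : ℝ) < v := by exact_mod_cast hpos v (hVcop v hv)
    calc φ v = c v * (v : ℝ) ^ (-γ) := rfl
      _ ≤ (∑ p ∈ ch S v, (5 / (2 ^ p.1 * 3 ^ p.2 : ℝ)) ^ γ * c (cv p v)) * (v : ℝ) ^ (-γ) :=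
          mul_le_mul_of_nonneg_right (h v (hVcop v hv)) (Real.rpow_nonneg hv0.le _)
      _ = ∑ p ∈ ch S v, (5 / (2 ^ p.1 * 3 ^ p.2 : ℝ)) ^ γ * c (cv p v) * (v : ℝ) ^ (-γ) :=
          Finset.sum_mul _ _ _
      _ ≤ ∑ p ∈ ch S v, φ (cv p v) := by
          refine Finset.sum_le_sum fun p hp => ?_
          have hp' := (Finset.mem_filter.1 hp).2
          have hq : (0 : ℝ) < 2 ^ p.1 * 3 ^ p.2 := by positivity
          have hw0 : (0 : ℝ) < (cv p v : ℕ) := by exact_mod_cast hpos _ hp'.2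
          have hle : ((cv p v : ℕ) : ℝ) ≤ (2 ^ p.1 * 3 ^ p.2) / 5 * v := by
            have h5 : (5 * (cv p v : ℕ) + 1 : ℝ) = 2 ^ p.1 * 3 ^ p.2 * v := by
              exact_mod_cast hp'.1
            linarith
          have h1 : ((2 ^ p.1 * 3 ^ p.2 : ℝ) / 5 * v) ^ (-γ) ≤ ((cv p v : ℕ) : ℝ) ^ (-γ) :=
            Real.rpow_le_rpow_of_nonpos hw0 hle (by linarith)
          have h2 : ((2 ^ p.1 * 3 ^ p.2 : ℝ) / 5 * v) ^ (-γ) =
              (5 / (2 ^ p.1 * 3 ^ p.2 : ℝ)) ^ γ * (v : ℝ) ^ (-γ) := by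
            rw [Real.mul_rpow (by positivity) hv0.le]
            congr 1
            rw [Real.rpow_neg (by positivity), ← Real.inv_rpow (by positivity), inv_div]
          calc (5 / (2 ^ p.1 * 3 ^ p.2 : ℝ)) ^ γ * c (cv p v) * (v : ℝ) ^ (-γ)
              = c (cv p v) * ((5 / (2 ^ p.1 * 3 ^ p.2 : ℝ)) ^ γ * (v : ℝ) ^ (-γ)) := by ring
            _ = c (cv p v) * ((2 ^ p.1 * 3 ^ p.2 : ℝ) / 5 * v) ^ (-γ) := by rw [h2]
            _ ≤ c (cv p v) * ((cv p v : ℕ) : ℝ) ^ (-γ) := mul_le_mul_of_nonneg_left h1 (hc0 _)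
            _ = φ (cv p v) := rfl
  -- the children as one set
  set I : Finset (Σ _ : ℕ, ℕ × ℕ) := V.sigma (fun v => ch S v) with hI
  have hinj : Set.InjOn (fun x : (Σ _ : ℕ, ℕ × ℕ) => cv x.2 x.1) (I : Set (Σ _ : ℕ, ℕ × ℕ)) := by
    rintro ⟨v, p⟩ hx ⟨v', p'⟩ hx' he
    rw [Finset.mem_coe, hI, Finset.mem_sigma] at hx hx'
    dsimp only at hx hx' he
    have h1 := hchild v hx.1 p hx.2
    have h2 := hchild v' hx'.1 p' hx'.2
    rw [he, h2] at h1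
    subst h1
    have e1 := ((Finset.mem_filter.1 hx.2).2).1
    have e2 := ((Finset.mem_filter.1 hx'.2).2).1
    rw [he, e2] at e1
    have := pow_inj (hpos _ (hVcop _ hx.1)).ne' e1
    have : p = p' := Prod.ext this.1.symm this.2.symm
    subst this
    rfl
  set L : Finset ℕ := (I.image (fun x => cv x.2 x.1)).filter (fun w => Y ≤ w) with hL
  have hsum : ∑ v ∈ V, φ v ≤ ∑ w ∈ (V.erase u), φ w + ∑ w ∈ L, φ w := by
    calc ∑ v ∈ V, φ v ≤ ∑ v ∈ V, ∑ p ∈ ch S v, φ (cv p v) := Finset.sum_le_sum hw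
      _ = ∑ x ∈ I, φ (cv x.2 x.1) := by rw [hI, Finset.sum_sigma]
      _ = ∑ w ∈ I.image (fun x => cv x.2 x.1), φ w := by rw [Finset.sum_image hinj]
      _ ≤ ∑ w ∈ (V.erase u) ∪ L, φ w := by
          refine Finset.sum_le_sum_of_subset_of_nonneg ?_ fun w _ _ => hφ0 w
          intro w hwI
          rw [Finset.mem_union]
          by_cases hY' : Y ≤ w
          · exact Or.inr (Finset.mem_filter.2 ⟨hwI, hY'⟩)
          · left
            obtain ⟨⟨v, p⟩, hx, rfl⟩ := Finset.mem_image.1 hwI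
            rw [hI, Finset.mem_sigma] at hx
            exact Finset.mem_erase.2 ⟨hchildu v hx.1 p hx.2, hchildV v hx.1 p hx.2 (by
              dsimp only at hY' ⊢
              omega)⟩
      _ ≤ _ := by
          rw [← Finset.sum_union_inter]
          have : 0 ≤ ∑ w ∈ V.erase u ∩ L, φ w := Finset.sum_nonneg fun w _ => hφ0 w
          linarith
  have hsum' : φ u ≤ ∑ w ∈ L, φ w := by
    rw [← Finset.add_sum_erase V φ huV] at hsum
    linarith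
  have hφL : ∀ w ∈ L, φ w ≤ (Y : ℝ) ^ (-γ) := by
    intro w hwL
    have hYw := (Finset.mem_filter.1 hwL).2
    have hY0' : (0 : ℝ) < Y := by exact_mod_cast hY0
    calc φ w = c w * (w : ℝ) ^ (-γ) := rfl
      _ ≤ 1 * (w : ℝ) ^ (-γ) :=
          mul_le_mul_of_nonneg_right (hc1 w) (Real.rpow_nonneg (Nat.cast_nonneg w) _)
      _ = (w : ℝ) ^ (-γ) := one_mul _
      _ ≤ (Y : ℝ) ^ (-γ) :=
          Real.rpow_le_rpow_of_nonpos hY0' (by exact_mod_cast hYw) (by linarith)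
  have hcard : φ u ≤ (L.card : ℝ) * (Y : ℝ) ^ (-γ) := by
    calc φ u ≤ ∑ w ∈ L, φ w := hsum'
      _ ≤ ∑ _w ∈ L, (Y : ℝ) ^ (-γ) := Finset.sum_le_sum hφL
      _ = _ := by rw [Finset.sum_const, nsmul_eq_mul]
  have hsub : (L : Set ℕ) ⊆ {n : ℕ | 1 ≤ n ∧ n ≤ N * Y ∧ Reach n m} := by
    intro w hwL
    have hwL' := Finset.mem_filter.1 (Finset.mem_coe.1 hwL)
    obtain ⟨⟨v, p⟩, hx, rfl⟩ := Finset.mem_image.1 hwL'.1
    rw [hI, Finset.mem_sigma] at hx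
    dsimp only at hx ⊢
    refine ⟨hY0.trans_le hwL'.2, ?_, (hreachV v hx.1 p hx.2).trans hum⟩
    have e1 := ((Finset.mem_filter.1 hx.2).2).1
    have e2 := hS p (Finset.mem_filter.1 hx.2).1
    have e3 := hVlt v hx.1
    have e4 : 2 ^ p.1 * 3 ^ p.2 * v ≤ N * Y := Nat.mul_le_mul e2 e3.le
    omega
  have hfin : {n : ℕ | 1 ≤ n ∧ n ≤ N * Y ∧ Reach n m}.Finite :=
    (Set.finite_Icc 1 (N * Y)).subset fun n hn => ⟨hn.1, hn.2.1⟩
  have hle : (L.card : ℝ) ≤ ({n : ℕ | 1 ≤ n ∧ n ≤ N * Y ∧ Reach n m}.ncard : ℝ) := by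
    have := Set.ncard_le_ncard hsub hfin
    rw [Set.ncard_coe_finset] at this
    exact_mod_cast this
  have hY0' : (0 : ℝ) < Y := by exact_mod_cast hY0
  have hYY : (Y : ℝ) ^ (-γ) * (Y : ℝ) ^ γ = 1 := by
    rw [← Real.rpow_add hY0']
    simp
  calc c u * (u : ℝ) ^ (-γ) * (Y : ℝ) ^ γ = φ u * (Y : ℝ) ^ γ := rfl
    _ ≤ ((L.card : ℝ) * (Y : ℝ) ^ (-γ)) * (Y : ℝ) ^ γ :=
        mul_le_mul_of_nonneg_right hcard (Real.rpow_nonneg hY0'.le _)
    _ = (L.card : ℝ) := by rw [mul_assoc, hYY, mul_one]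
    _ ≤ _ := hle

/-- the counting lower bound at every number prime to 5 that is odd or a multiple of 3, from a
system of weights -/
theorem tree_count (γ : ℝ) (hγ : 0 < γ) (c : ℕ → ℝ) (S : Finset (ℕ × ℕ)) (N : ℕ) (hN : 0 < N)
    (hc0 : ∀ v, 0 ≤ c v) (hc1 : ∀ v, c v ≤ 1) (hcu : ∀ v, Nat.Coprime v 30 → 0 < c v)
    (hS : ∀ p ∈ S, 2 ^ p.1 * 3 ^ p.2 ≤ N)
    (h : ∀ v, Nat.Coprime v 30 →
      c v ≤ ∑ p ∈ ch S v, (5 / (2 ^ p.1 * 3 ^ p.2 : ℝ)) ^ γ * c (cv p v))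
    {m : ℕ} (hm2 : ¬ 2 ∣ m ∨ 3 ∣ m) (hm5 : ¬ 5 ∣ m) :
    ∃ K : ℝ, 0 < K ∧ ∀ᶠ x : ℝ in atTop,
      K * x ^ γ ≤ ({n : ℕ | 1 ≤ n ∧ (n : ℝ) ≤ x ∧ Reach n m}.ncard : ℝ) := by
  obtain ⟨u, m1, hu, hum, hu1, hu2⟩ := exists_root' hm2 hm5
  have hu0 : 0 < u := by
    rcases Nat.eq_zero_or_pos u with h0 | h0
    · exfalso
      have := (not_dvd_of_coprime hu).1
      exact this (h0 ▸ dvd_zero 2)
    · exact h0
  have hu0' : (0 : ℝ) < u := by exact_mod_cast hu0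
  have hN' : (0 : ℝ) < N := by exact_mod_cast hN
  refine ⟨c u * (u : ℝ) ^ (-γ) * (1 / (2 * N)) ^ γ, ?_, ?_⟩
  · have := hcu u hu
    have h1 := Real.rpow_pos_of_pos hu0' (-γ)
    have h2 := Real.rpow_pos_of_pos (by positivity : (0 : ℝ) < 1 / (2 * N)) γ
    positivity
  · filter_upwards [eventually_ge_atTop ((N : ℝ) * (u + 2))] with x hx
    have hx0 : 0 < x := by
      have : (0 : ℝ) < (N : ℝ) * (u + 2) := by positivity
      linarith
    set Y : ℕ := ⌊x / N⌋₊ with hYdef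
    have hY1 : (Y : ℝ) ≤ x / N := Nat.floor_le (by positivity)
    have hY2 : x / N < Y + 1 := Nat.lt_floor_add_one _
    have hY3 : (u : ℝ) + 2 ≤ x / N := by
      rw [le_div_iff₀ hN']
      linarith
    have hYu : u < Y := by
      have : (u : ℝ) < Y := by linarith
      exact_mod_cast this
    have h1 := count_step γ hγ c S N hc0 hc1 hS h hu hum hu1 hu2 Y hYu
    have hsub : {n : ℕ | 1 ≤ n ∧ n ≤ N * Y ∧ Reach n m} ⊆
        {n : ℕ | 1 ≤ n ∧ (n : ℝ) ≤ x ∧ Reach n m} := by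
      rintro n ⟨hn1, hn2, hn3⟩
      refine ⟨hn1, ?_, hn3⟩
      have h3 : (n : ℝ) ≤ (N : ℝ) * Y := by exact_mod_cast hn2
      have h4 : (N : ℝ) * Y ≤ N * (x / N) := mul_le_mul_of_nonneg_left hY1 hN'.le
      have h5 : (N : ℝ) * (x / N) = x := by field_simp
      linarith
    have hfin : {n : ℕ | 1 ≤ n ∧ (n : ℝ) ≤ x ∧ Reach n m}.Finite := by
      refine (Set.finite_Iic ⌊x⌋₊).subset ?_
      rintro n ⟨-, hn2, -⟩
      exact Nat.le_floor hn2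
    have h2 : ({n : ℕ | 1 ≤ n ∧ n ≤ N * Y ∧ Reach n m}.ncard : ℝ) ≤
        ({n : ℕ | 1 ≤ n ∧ (n : ℝ) ≤ x ∧ Reach n m}.ncard : ℝ) := by
      exact_mod_cast Set.ncard_le_ncard hsub hfin
    have hYx : 1 / (2 * N) * x ≤ (Y : ℝ) := by
      have h6 : 1 / (2 * (N : ℝ)) * x = (x / N) / 2 := by
        field_simp
      rw [h6]
      have : (0 : ℝ) < u := hu0'
      linarith
    calc c u * (u : ℝ) ^ (-γ) * (1 / (2 * N)) ^ γ * x ^ γ
        = c u * (u : ℝ) ^ (-γ) * (1 / (2 * N) * x) ^ γ := by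
          rw [Real.mul_rpow (by positivity) hx0.le]
          ring
      _ ≤ c u * (u : ℝ) ^ (-γ) * (Y : ℝ) ^ γ := by
          refine mul_le_mul_of_nonneg_left ?_ ?_
          · exact Real.rpow_le_rpow (by positivity) hYx hγ.le
          · exact mul_nonneg (hc0 u) (Real.rpow_nonneg hu0'.le _)
      _ ≤ _ := h1.trans h2

end Pool.Agent.Lib.MP_a4658c_nt.KL
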