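import Mathlib

/-!
MP_a4658c_nt, counting the integers whose Kakutani orbit contains a given number: a small
evaluator of tables, written so that Lean's kernel runs it quickly.
-/

set_option autoImplicit false

namespace Pool.Agent.Lib.MP_a4658c_nt.KL

/-- a table of 16-bit numbers, split by the base 5 digits of the index -/
inductive T5 where
  | l : ℕ → T5
  | n : T5 → T5 → T5 → T5 → T5 → T5

/-- a list of exponents `a`, `b`, a residue `m` and a weight `W` -/
inductive Ls where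
  | e : Ls
  | c : ℕ → ℕ → ℕ → ℕ → Ls → Ls

noncomputable def pick (a b c d e : ℕ) (k : ℕ) : ℕ :=
  Nat.rec a (fun k _ => Nat.rec b (fun k _ => Nat.rec c (fun k _ =>
    Nat.rec d (fun _ _ => e) k) k) k) k

noncomputable def get (t : T5) : ℕ → ℕ :=
  T5.rec (fun x i => Nat.land (Nat.shiftRight x (Nat.mul 16 i)) 65535)
    (fun _ _ _ _ _ ga gb gc gd ge i =>
      pick (ga (Nat.div i 5)) (gb (Nat.div i 5)) (gc (Nat.div i 5)) (gd (Nat.div i 5))
        (ge (Nat.div i 5)) (Nat.mod i 5)) t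

noncomputable def sm (P1 : ℕ) (T : T5) (L : Ls) : ℕ → ℕ :=
  Ls.rec (fun _ => 0) (fun _ _ m W _ ih u =>
    Nat.add (Nat.mul W (get T (Nat.div (Nat.mod (Nat.mul u m) P1) 5))) (ih u)) L

noncomputable def chk (f : ℕ → Bool) (d : ℕ) : ℕ → Bool :=
  Nat.rec (fun s => f s) (fun d ih s => Bool.rec false (ih (Nat.add s (Nat.pow 2 d))) (ih s)) d

/-- the two inequalities at `u = r + 5 s`; `Tx` is the table of the type without the extra
list `LB`, and `Ty` that of the type with it -/
noncomputable def one (P P1 M : ℕ) (T0 T1 Tx Ty : T5) (LA LB : Ls) (r s : ℕ) : Bool :=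
  Bool.rec false
    (Nat.ble (Nat.mul M (get Ty (Nat.mod (Nat.add r (Nat.mul 5 s)) P)))
      (Nat.add (sm P1 T0 LA (Nat.add r (Nat.mul 5 s))) (sm P1 T1 LB (Nat.add r (Nat.mul 5 s)))))
    (Nat.ble (Nat.mul M (get Tx (Nat.mod (Nat.add r (Nat.mul 5 s)) P)))
      (sm P1 T0 LA (Nat.add r (Nat.mul 5 s))))

noncomputable def pos (T : T5) (r s : ℕ) : Bool :=
  Nat.ble 1 (get T (Nat.add r (Nat.mul 5 s)))

/-- the entries of a list -/
def toL : Ls → List (ℕ × ℕ × ℕ × ℕ)
  | .e => []
  | .c a b m W L => (a, b, m, W) :: toL L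

theorem get_l (x i : ℕ) : get (.l x) i = (x >>> (16 * i)) &&& 65535 := rfl

theorem get_n (a b c d e : T5) (i : ℕ) : get (.n a b c d e) i =
    pick (get a (i / 5)) (get b (i / 5)) (get c (i / 5)) (get d (i / 5)) (get e (i / 5))
      (i % 5) := rfl

theorem pick_le {a b c d e B : ℕ} (ha : a ≤ B) (hb : b ≤ B) (hc : c ≤ B) (hd : d ≤ B)
    (he : e ≤ B) (k : ℕ) : pick a b c d e k ≤ B := by
  unfold pick
  rcases k with _ | _ | _ | _ | k
  · exact ha
  · exact hb
  · exact hc
  · exact hd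
  · exact he

theorem get_le (T : T5) : ∀ i, get T i ≤ 65535 := by
  induction T with
  | l x =>
    intro i
    rw [get_l]
    exact Nat.and_le_right
  | n a b c d e ha hb hc hd he =>
    intro i
    rw [get_n]
    exact pick_le (ha _) (hb _) (hc _) (hd _) (he _) _

theorem get_zero {b c d e : T5} {i : ℕ} (h : i % 5 = 0) : get (.n (.l 0) b c d e) i = 0 := by
  rw [get_n, h]
  change get (.l 0) (i / 5) = 0
  rw [get_l]
  simp

theorem sm_eq (P1 : ℕ) (T : T5) (L : Ls) (u : ℕ) :
    sm P1 T L u = ((toL L).map (fun x => x.2.2.2 * get T ((u * x.2.2.1 % P1) / 5))).sum := by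
  induction L with
  | e => rfl
  | c a b m W L ih =>
    rw [toL, List.map_cons, List.sum_cons, ← ih]
    rfl

theorem chk_imp (f : ℕ → Bool) (d : ℕ) : ∀ s, chk f d s = true →
    ∀ i < 2 ^ d, f (s + i) = true := by
  induction d with
  | zero =>
    intro s h i hi
    have : i = 0 := by
      have : (2 : ℕ) ^ 0 = 1 := rfl
      omega
    subst this
    exact h
  | succ d ih =>
    intro s h i hi
    have e : chk f (d + 1) s =
        Bool.rec false (chk f d (s + 2 ^ d)) (chk f d s) := rfl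
    rw [e] at h
    have h1 : chk f d s = true := by
      rcases hc : chk f d s with _ | _
      · rw [hc] at h
        exact absurd h (by simp)
      · rfl
    rw [h1] at h
    have h2 : chk f d (s + 2 ^ d) = true := h
    rcases Nat.lt_or_ge i (2 ^ d) with h3 | h3
    · exact ih s h1 i h3
    · obtain ⟨j, rfl⟩ : ∃ j, i = 2 ^ d + j := ⟨i - 2 ^ d, by omega⟩
      rw [← Nat.add_assoc]
      refine ih _ h2 j ?_
      rw [pow_succ] at hi
      omega

theorem one_imp {P P1 M : ℕ} {T0 T1 Tx Ty : T5} {LA LB : Ls} {r s : ℕ}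
    (h : one P P1 M T0 T1 Tx Ty LA LB r s = true) :
    M * get Tx ((r + 5 * s) % P) ≤ sm P1 T0 LA (r + 5 * s) ∧
    M * get Ty ((r + 5 * s) % P) ≤ sm P1 T0 LA (r + 5 * s) + sm P1 T1 LB (r + 5 * s) := by
  have e : one P P1 M T0 T1 Tx Ty LA LB r s = Bool.rec false
      (Nat.ble (M * get Ty ((r + 5 * s) % P))
        (sm P1 T0 LA (r + 5 * s) + sm P1 T1 LB (r + 5 * s)))
      (Nat.ble (M * get Tx ((r + 5 * s) % P)) (sm P1 T0 LA (r + 5 * s))) := rfl
  rw [e] at h
  have h1 : Nat.ble (M * get Tx ((r + 5 * s) % P)) (sm P1 T0 LA (r + 5 * s)) = true := by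
    rcases hc : Nat.ble (M * get Tx ((r + 5 * s) % P)) (sm P1 T0 LA (r + 5 * s)) with _ | _
    · rw [hc] at h
      exact absurd h (by simp)
    · rfl
  rw [h1] at h
  have h2 : Nat.ble (M * get Ty ((r + 5 * s) % P))
        (sm P1 T0 LA (r + 5 * s) + sm P1 T1 LB (r + 5 * s)) = true := h
  exact ⟨Nat.le_of_ble_eq_true h1, Nat.le_of_ble_eq_true h2⟩

end Pool.Agent.Lib.MP_a4658c_nt.KL
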