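import Pool.Agent.Lib.MP_a4658c_nt.KL.Sys
import Pool.Agent.Lib.MP_a4658c_nt.KL.Cert1
import Pool.Agent.Lib.MP_a4658c_nt.KL.Cert2
import Pool.Agent.Lib.MP_a4658c_nt.KL.Cert3
import Pool.Agent.Lib.MP_a4658c_nt.KL.Cert4

/-!
MP_a4658c_nt, counting the integers whose Kakutani orbit contains a given number: the final bound.
-/

set_option autoImplicit false

open Finset Filter

namespace Pool.Agent.Lib.MP_a4658c_nt.KL

theorem eight {f : ℕ → Bool} (h0 : chk f 11 0 = true) (h1 : chk f 11 2048 = true)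
    (h2 : chk f 11 4096 = true) (h3 : chk f 11 6144 = true) (h4 : chk f 11 8192 = true)
    (h5 : chk f 11 10240 = true) (h6 : chk f 11 12288 = true) (h7 : chk f 11 14336 = true) :
    ∀ s < 15625, f s = true := by
  intro s hs
  have e : (2 : ℕ) ^ 11 = 2048 := by norm_num
  have key : ∀ b, chk f 11 b = true → b ≤ s → s < b + 2048 → f s = true := by
    intro b hb h1 h2
    have := chk_imp f 11 b hb (s - b) (by omega)
    rwa [show b + (s - b) = s from by omega] at this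
  rcases Nat.lt_or_ge s 2048 with h | h
  · exact key 0 h0 (by omega) (by omega)
  rcases Nat.lt_or_ge s 4096 with h | h
  · exact key 2048 h1 (by omega) (by omega)
  rcases Nat.lt_or_ge s 6144 with h | h
  · exact key 4096 h2 (by omega) (by omega)
  rcases Nat.lt_or_ge s 8192 with h | h
  · exact key 6144 h3 (by omega) (by omega)
  rcases Nat.lt_or_ge s 10240 with h | h
  · exact key 8192 h4 (by omega) (by omega)
  rcases Nat.lt_or_ge s 12288 with h | h
  · exact key 10240 h5 (by omega) (by omega)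
  rcases Nat.lt_or_ge s 14336 with h | h
  · exact key 12288 h6 (by omega) (by omega)
  · exact key 14336 h7 (by omega) (by omega)

theorem two {f : ℕ → Bool} (h0 : chk f 11 0 = true) (h1 : chk f 11 1077 = true) :
    ∀ s < 3125, f s = true := by
  intro s hs
  have e : (2 : ℕ) ^ 11 = 2048 := by norm_num
  have key : ∀ b, chk f 11 b = true → b ≤ s → s < b + 2048 → f s = true := by
    intro b hb h1 h2
    have := chk_imp f 11 b hb (s - b) (by omega)
    rwa [show b + (s - b) = s from by omega] at this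
  rcases Nat.lt_or_ge s 2048 with h | h
  · exact key 0 h0 (by omega) (by omega)
  · exact key 1077 h1 (by omega) (by omega)

theorem tab_one {v : ℕ} (h : v % 3 = 1) : tab v = get tb0 (v % 15625) := by
  unfold tab
  rw [if_pos h]

theorem tab_two {v : ℕ} (h : v % 3 = 2) : tab v = get tb1 (v % 15625) := by
  unfold tab
  rw [if_neg (by omega)]

theorem tab_pos {v : ℕ} (hv : Nat.Coprime v 30) : 0 < tab v := by
  obtain ⟨hv2, hv3, hv5⟩ := not_dvd_of_coprime hv
  have key : ∀ (T : T5) (r : ℕ), v % 5 = r → (∀ s < 3125, pos T r s = true) →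
      0 < get T (v % 15625) := by
    intro T r hr h
    have h1 := h (v % 15625 / 5) (by omega)
    have h2 : 1 ≤ get T (r + 5 * (v % 15625 / 5)) := Nat.le_of_ble_eq_true h1
    rwa [show r + 5 * (v % 15625 / 5) = v % 15625 from by omega] at h2
  have h5 : v % 5 = 1 ∨ v % 5 = 2 ∨ v % 5 = 3 ∨ v % 5 = 4 := by omega
  have h3 : v % 3 = 1 ∨ v % 3 = 2 := by omega
  rcases h3 with h3 | h3
  · rw [tab_one h3]
    rcases h5 with h | h | h | h
    · exact key tb0 1 h (two pos1_0 pos1_0')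
    · exact key tb0 2 h (two pos2_0 pos2_0')
    · exact key tb0 3 h (two pos3_0 pos3_0')
    · exact key tb0 4 h (two pos4_0 pos4_0')
  · rw [tab_two h3]
    rcases h5 with h | h | h | h
    · exact key tb1 1 h (two pos1_1 pos1_1')
    · exact key tb1 2 h (two pos2_1 pos2_1')
    · exact key tb1 3 h (two pos3_1 pos3_1')
    · exact key tb1 4 h (two pos4_1 pos4_1')

theorem weights {v : ℕ} (hv : Nat.Coprime v 30) : (tab v : ℝ) ≤
    ∑ p ∈ ch SS v, (5 / (2 ^ p.1 * 3 ^ p.2 : ℝ)) ^ (15 / 17 : ℝ) * tab (cv p v) := by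
  obtain ⟨hv2, hv3, hv5⟩ := not_dvd_of_coprime hv
  have h5 : v % 5 = 1 ∨ v % 5 = 2 ∨ v % 5 = 3 ∨ v % 5 = 4 := by omega
  rcases h5 with h | h | h | h
  · exact cls (LA := LA1) (LB := LB1) (Tx := tb0) (Ty := tb1) (tx := 1) (ty := 2) (par := 0)
      (by decide +kernel) (by decide +kernel) (by decide +kernel)
      (eight cert1_0 cert1_1 cert1_2 cert1_3 cert1_4 cert1_5 cert1_6 cert1_7)
      (fun _ => tab_one) (fun _ => tab_two) (Or.inr ⟨rfl, rfl⟩) (fun _ _ => by omega) hv h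
  · exact cls (LA := LA2) (LB := LB2) (Tx := tb1) (Ty := tb0) (tx := 2) (ty := 1) (par := 1)
      (by decide +kernel) (by decide +kernel) (by decide +kernel)
      (eight cert2_0 cert2_1 cert2_2 cert2_3 cert2_4 cert2_5 cert2_6 cert2_7)
      (fun _ => tab_two) (fun _ => tab_one) (Or.inl ⟨rfl, rfl⟩) (fun _ _ => by omega) hv h
  · exact cls (LA := LA3) (LB := LB3) (Tx := tb1) (Ty := tb0) (tx := 2) (ty := 1) (par := 1)
      (by decide +kernel) (by decide +kernel) (by decide +kernel)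
      (eight cert3_0 cert3_1 cert3_2 cert3_3 cert3_4 cert3_5 cert3_6 cert3_7)
      (fun _ => tab_two) (fun _ => tab_one) (Or.inl ⟨rfl, rfl⟩) (fun _ _ => by omega) hv h
  · exact cls (LA := LA4) (LB := LB4) (Tx := tb0) (Ty := tb1) (tx := 1) (ty := 2) (par := 0)
      (by decide +kernel) (by decide +kernel) (by decide +kernel)
      (eight cert4_0 cert4_1 cert4_2 cert4_3 cert4_4 cert4_5 cert4_6 cert4_7)
      (fun _ => tab_one) (fun _ => tab_two) (Or.inr ⟨rfl, rfl⟩) (fun _ _ => by omega) hv h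

/-- the counting bound with a constant -/
theorem main_const {m : ℕ} (hm2 : ¬ 2 ∣ m ∨ 3 ∣ m) (hm5 : ¬ 5 ∣ m) :
    ∃ K : ℝ, 0 < K ∧ ∀ᶠ x : ℝ in atTop,
      K * x ^ (15 / 17 : ℝ) ≤ ({n : ℕ | 1 ≤ n ∧ (n : ℝ) ≤ x ∧ Reach n m}.ncard : ℝ) := by
  refine tree_count (15 / 17) (by norm_num) (fun v => (tab v : ℝ) / 65536) SS (2 ^ 13 * 3 ^ 7)
    (by positivity) (fun v => by positivity) ?_ ?_ ?_ ?_ hm2 hm5
  · intro v
    rw [div_le_one (by norm_num)]
    have h : (tab v : ℝ) ≤ ((65535 : ℕ) : ℝ) := by exact_mod_cast tab_le v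
    have h' : ((65535 : ℕ) : ℝ) ≤ 65536 := by norm_num
    linarith
  · intro v hv
    have : (0 : ℝ) < tab v := by exact_mod_cast tab_pos hv
    positivity
  · intro p hp
    rw [SS, Finset.mem_product, Finset.mem_range, Finset.mem_range] at hp
    exact Nat.mul_le_mul (Nat.pow_le_pow_right (by norm_num) (by omega))
      (Nat.pow_le_pow_right (by norm_num) (by omega))
  · intro v hv
    have h := weights hv
    calc (tab v : ℝ) / 65536
        ≤ (∑ p ∈ ch SS v, (5 / (2 ^ p.1 * 3 ^ p.2 : ℝ)) ^ (15 / 17 : ℝ) * tab (cv p v)) /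
            65536 := div_le_div_of_nonneg_right h (by norm_num)
      _ = ∑ p ∈ ch SS v, (5 / (2 ^ p.1 * 3 ^ p.2 : ℝ)) ^ (15 / 17 : ℝ) *
            ((tab (cv p v) : ℝ) / 65536) := by
          rw [Finset.sum_div]
          refine Finset.sum_congr rfl fun p _ => ?_
          ring

/-- the final bound -/
theorem main {m : ℕ} (hm2 : ¬ 2 ∣ m ∨ 3 ∣ m) (hm5 : ¬ 5 ∣ m) : ∀ᶠ x : ℝ in atTop,
    x ^ (0.88 : ℝ) ≤ ({n : ℕ | 1 ≤ n ∧ (n : ℝ) ≤ x ∧ Reach n m}.ncard : ℝ) := by
  obtain ⟨K, hK, h⟩ := main_const hm2 hm5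
  have h1 : ∀ᶠ x : ℝ in atTop, K⁻¹ ≤ x ^ (15 / 17 - 0.88 : ℝ) :=
    (tendsto_rpow_atTop (by norm_num)).eventually_ge_atTop _
  filter_upwards [h, h1, eventually_gt_atTop 0] with x hx hx1 hx0
  refine le_trans ?_ hx
  have e : x ^ (15 / 17 : ℝ) = x ^ (15 / 17 - 0.88 : ℝ) * x ^ (0.88 : ℝ) := by
    rw [← Real.rpow_add hx0]
    norm_num
  rw [e, ← mul_assoc]
  have h2 : 1 ≤ K * x ^ (15 / 17 - 0.88 : ℝ) := by
    calc (1 : ℝ) = K * K⁻¹ := (mul_inv_cancel₀ hK.ne').symm
      _ ≤ K * x ^ (15 / 17 - 0.88 : ℝ) := mul_le_mul_of_nonneg_left hx1 hK.le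
  have h3 : 0 ≤ x ^ (0.88 : ℝ) := Real.rpow_nonneg hx0.le _
  nlinarith

end Pool.Agent.Lib.MP_a4658c_nt.KL
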