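import Pool.Agent.Lib.MP_a4658c_nt.KL.Count
import Pool.Agent.Lib.MP_a4658c_nt.KL.Data

/-!
MP_a4658c_nt, counting the integers whose Kakutani orbit contains a given number: from the checked
inequalities to the system of weights.
-/

set_option autoImplicit false

open Finset

namespace Pool.Agent.Lib.MP_a4658c_nt.KL

/-- the weight of a number -/
noncomputable def tab (v : ℕ) : ℕ :=
  if v % 3 = 1 then get tb0 (v % 15625) else get tb1 (v % 15625)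

/-- the exponents used -/
def SS : Finset (ℕ × ℕ) := Finset.range 14 ×ˢ Finset.range 8

theorem tab_le (v : ℕ) : tab v ≤ 65535 := by
  unfold tab
  split_ifs
  · exact get_le _ _
  · exact get_le _ _

theorem tab_zero {v : ℕ} (h : 5 ∣ v) : tab v = 0 := by
  have h1 : v % 15625 % 5 = 0 := by omega
  unfold tab
  split_ifs
  · exact get_zero h1
  · exact get_zero h1

theorem W_le {W Q : ℕ} (hQ : 0 < Q) (h : W ^ 17 * Q ^ 15 ≤ 5 ^ 15 * 65536 ^ 17) :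
    (W : ℝ) ≤ 65536 * (5 / (Q : ℝ)) ^ (15 / 17 : ℝ) := by
  have hQ' : (0 : ℝ) < Q := by exact_mod_cast hQ
  have h1 : (W : ℝ) ^ 17 * (Q : ℝ) ^ 15 ≤ 5 ^ 15 * 65536 ^ 17 := by exact_mod_cast h
  have h2 : ((W : ℝ) / 65536) ^ 17 ≤ (5 / (Q : ℝ)) ^ 15 := by
    rw [div_pow, div_pow, div_le_div_iff₀ (by positivity) (by positivity)]
    exact h1
  have h3 : (W : ℝ) / 65536 ≤ (5 / (Q : ℝ)) ^ (15 / 17 : ℝ) := by
    have e1 : (((W : ℝ) / 65536) ^ 17) ^ (((17 : ℕ) : ℝ)⁻¹) = (W : ℝ) / 65536 :=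
      Real.pow_rpow_inv_natCast (by positivity) (by norm_num)
    have e2 : (5 / (Q : ℝ)) ^ (15 / 17 : ℝ) = ((5 / (Q : ℝ)) ^ 15) ^ (((17 : ℕ) : ℝ)⁻¹) := by
      rw [← Real.rpow_natCast_mul (by positivity)]
      norm_num
    rw [← e1, e2]
    exact Real.rpow_le_rpow (by positivity) h2 (by positivity)
  have h4 : (W : ℝ) = 65536 * ((W : ℝ) / 65536) := by ring
  rw [h4]
  exact mul_le_mul_of_nonneg_left h3 (by norm_num)

/-- the numeric condition on an entry -/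
def okW (x : ℕ × ℕ × ℕ × ℕ) : Prop :=
  x.2.2.2 ^ 17 * (2 ^ x.1 * 3 ^ x.2.1) ^ 15 ≤ 5 ^ 15 * 65536 ^ 17

/-- an entry with a factor 3 -/
def okA (r : ℕ) (x : ℕ × ℕ × ℕ × ℕ) : Prop :=
  1 ≤ x.1 ∧ 1 ≤ x.2.1 ∧ x.1 < 14 ∧ x.2.1 < 8 ∧ 2 ^ x.1 * 3 ^ x.2.1 * r % 5 = 1 ∧
    2 ^ x.1 * 3 ^ x.2.1 % 78125 = x.2.2.1 ∧
    x.2.2.2 ^ 17 * (2 ^ x.1 * 3 ^ x.2.1) ^ 15 ≤ 5 ^ 15 * 65536 ^ 17

/-- an entry without a factor 3 -/
def okB (r par : ℕ) (x : ℕ × ℕ × ℕ × ℕ) : Prop :=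
  1 ≤ x.1 ∧ x.2.1 = 0 ∧ x.1 < 14 ∧ x.1 % 2 = par ∧ 2 ^ x.1 * 3 ^ x.2.1 * r % 5 = 1 ∧
    2 ^ x.1 * 3 ^ x.2.1 % 78125 = x.2.2.1 ∧
    x.2.2.2 ^ 17 * (2 ^ x.1 * 3 ^ x.2.1) ^ 15 ≤ 5 ^ 15 * 65536 ^ 17

instance (r : ℕ) (x : ℕ × ℕ × ℕ × ℕ) : Decidable (okA r x) := by
  unfold okA
  infer_instance

instance (r par : ℕ) (x : ℕ × ℕ × ℕ × ℕ) : Decidable (okB r par x) := by
  unfold okB
  infer_instance

theorem sum_le {v : ℕ} (l : List (ℕ × ℕ × ℕ × ℕ))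
    (hnd : (l.map (fun x => (x.1, x.2.1))).Nodup)
    (hl : ∀ x ∈ l, 5 * cv (x.1, x.2.1) v + 1 = 2 ^ x.1 * 3 ^ x.2.1 * v ∧
      ¬ 2 ∣ cv (x.1, x.2.1) v ∧ ¬ 3 ∣ cv (x.1, x.2.1) v ∧ x.1 < 14 ∧ x.2.1 < 8 ∧
      x.2.2.2 ^ 17 * (2 ^ x.1 * 3 ^ x.2.1) ^ 15 ≤ 5 ^ 15 * 65536 ^ 17) :
    (((l.map (fun x => x.2.2.2 * tab (cv (x.1, x.2.1) v))).sum : ℕ) : ℝ) ≤
      65536 * ∑ p ∈ ch SS v, (5 / (2 ^ p.1 * 3 ^ p.2 : ℝ)) ^ (15 / 17 : ℝ) * tab (cv p v) := by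
  set g : ℕ × ℕ → ℝ := fun p => (5 / (2 ^ p.1 * 3 ^ p.2 : ℝ)) ^ (15 / 17 : ℝ) * tab (cv p v)
    with hg
  have hg0 : ∀ p, 0 ≤ g p := fun p => by
    rw [hg]
    positivity
  have h1 : (((l.map (fun x => x.2.2.2 * tab (cv (x.1, x.2.1) v))).sum : ℕ) : ℝ) =
      (l.map (fun x => (x.2.2.2 : ℝ) * tab (cv (x.1, x.2.1) v))).sum := by
    rw [Nat.cast_list_sum, List.map_map]
    congr 1
    refine List.map_congr_left fun x _ => ?_
    simp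
  have h2 : (l.map (fun x => (x.2.2.2 : ℝ) * tab (cv (x.1, x.2.1) v))).sum ≤
      (l.map (fun x => 65536 * g (x.1, x.2.1))).sum := by
    refine List.sum_le_sum fun x hx => ?_
    have hW := (hl x hx).2.2.2.2.2
    have hQ : 0 < 2 ^ x.1 * 3 ^ x.2.1 := by positivity
    have h3 := W_le hQ hW
    have h4 : ((2 ^ x.1 * 3 ^ x.2.1 : ℕ) : ℝ) = 2 ^ x.1 * 3 ^ x.2.1 := by push_cast; ring
    rw [h4] at h3
    calc (x.2.2.2 : ℝ) * tab (cv (x.1, x.2.1) v)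
        ≤ (65536 * (5 / (2 ^ x.1 * 3 ^ x.2.1 : ℝ)) ^ (15 / 17 : ℝ)) *
            tab (cv (x.1, x.2.1) v) := mul_le_mul_of_nonneg_right h3 (Nat.cast_nonneg _)
      _ = 65536 * g (x.1, x.2.1) := by rw [hg]; ring
  have h5 : (l.map (fun x => 65536 * g (x.1, x.2.1))).sum =
      65536 * ∑ p ∈ (l.map (fun x => (x.1, x.2.1))).toFinset, g p := by
    rw [List.sum_toFinset g hnd, List.sum_map_mul_left, List.map_map]
    rfl
  have h6 : ∑ p ∈ (l.map (fun x => (x.1, x.2.1))).toFinset, g p ≤ ∑ p ∈ ch SS v, g p := by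
    have e : ∑ p ∈ (l.map (fun x => (x.1, x.2.1))).toFinset, g p =
        ∑ p ∈ (l.map (fun x => (x.1, x.2.1))).toFinset.filter (fun p => ¬ 5 ∣ cv p v), g p := by
      symm
      refine Finset.sum_filter_of_ne fun p _ hp h5 => hp ?_
      rw [hg]
      dsimp only
      rw [tab_zero h5]
      simp
    rw [e]
    refine Finset.sum_le_sum_of_subset_of_nonneg ?_ fun p _ _ => hg0 p
    intro p hp
    rw [Finset.mem_filter, List.mem_toFinset, List.mem_map] at hp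
    obtain ⟨⟨x, hx, rfl⟩, h5⟩ := hp
    obtain ⟨e1, e2, e3, e4, e5, -⟩ := hl x hx
    rw [ch, Finset.mem_filter]
    refine ⟨?_, e1, coprime_thirty e2 e3 h5⟩
    rw [SS, Finset.mem_product, Finset.mem_range, Finset.mem_range]
    exact ⟨e4, e5⟩
  rw [h1]
  calc _ ≤ (l.map (fun x => 65536 * g (x.1, x.2.1))).sum := h2
    _ = 65536 * ∑ p ∈ (l.map (fun x => (x.1, x.2.1))).toFinset, g p := h5
    _ ≤ 65536 * ∑ p ∈ ch SS v, g p := mul_le_mul_of_nonneg_left h6 (by norm_num)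

/-- the facts on the child of `v` given by an entry -/
theorem entry {r v : ℕ} (hr : v % 5 = r) {a b m : ℕ} (ha : 1 ≤ a)
    (h1 : 2 ^ a * 3 ^ b * r % 5 = 1) (hm : 2 ^ a * 3 ^ b % 78125 = m) :
    5 * cv (a, b) v + 1 = 2 ^ a * 3 ^ b * v ∧
      (v % 78125) * m % 78125 / 5 = cv (a, b) v % 15625 ∧ ¬ 2 ∣ cv (a, b) v := by
  have hQ : 2 ^ a * 3 ^ b * v % 5 = 1 := by
    rw [Nat.mul_mod, hr, ← h1, Nat.mul_mod (2 ^ a * 3 ^ b) r]
    have : r % 5 = r := by omega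
    rw [this]
  obtain ⟨X, hX⟩ : ∃ X, X = 2 ^ a * 3 ^ b * v := ⟨_, rfl⟩
  have e1 : 5 * cv (a, b) v + 1 = X := by
    unfold cv
    dsimp only
    rw [← hX] at hQ ⊢
    omega
  refine ⟨e1.trans hX, ?_, ?_⟩
  · have e2 : (v % 78125) * m % 78125 = X % 78125 := by
      rw [← hm, hX, ← Nat.mul_mod, Nat.mul_comm]
    rw [e2, ← e1]
    omega
  · intro h2
    have h3 : 2 ∣ X := by
      rw [hX]
      refine Dvd.dvd.mul_right (Dvd.dvd.mul_right ?_ _) _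
      exact dvd_pow_self 2 (by omega)
    omega

theorem mod_three_one {v a b : ℕ} (hb : 1 ≤ b) (h : 5 * cv (a, b) v + 1 = 2 ^ a * 3 ^ b * v) :
    cv (a, b) v % 3 = 1 := by
  have h3 : 3 ∣ 2 ^ a * 3 ^ b * v := by
    refine Dvd.dvd.mul_right (Dvd.dvd.mul_left ?_ _) _
    exact dvd_pow_self 3 (by omega)
  omega

theorem mod_three_two {v a : ℕ} (hv : (v % 3 = 1 ∧ a % 2 = 1) ∨ (v % 3 = 2 ∧ a % 2 = 0))
    (h : 5 * cv (a, 0) v + 1 = 2 ^ a * 3 ^ 0 * v) : cv (a, 0) v % 3 = 2 := by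
  rw [pow_zero, mul_one] at h
  have h4 : ∀ k : ℕ, 4 ^ k % 3 = 1 := by
    intro k
    induction k with
    | zero => rfl
    | succ k ih => rw [pow_succ]; omega
  rcases hv with ⟨hv, ha⟩ | ⟨hv, ha⟩
  · obtain ⟨k, rfl⟩ : ∃ k, a = 2 * k + 1 := ⟨a / 2, by omega⟩
    have e0 : (2 : ℕ) ^ (2 * k + 1) = 4 ^ k * 2 := by
      rw [pow_succ, pow_mul]
      norm_num
    have e : 2 ^ (2 * k + 1) * v % 3 = 2 := by
      rw [e0, Nat.mul_mod, Nat.mul_mod (4 ^ k) 2, h4 k, hv]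
    omega
  · obtain ⟨k, rfl⟩ : ∃ k, a = 2 * k := ⟨a / 2, by omega⟩
    have e0 : (2 : ℕ) ^ (2 * k) = 4 ^ k := by
      rw [pow_mul]
      norm_num
    have e : 2 ^ (2 * k) * v % 3 = 2 := by
      rw [e0, Nat.mul_mod, h4 k, hv]
    omega

/-- the inequality of weights in one class mod 5 -/
theorem cls {r : ℕ} {LA LB : Ls} {Tx Ty : T5} {tx ty par : ℕ}
    (hA : ∀ x ∈ toL LA, okA r x) (hB : ∀ x ∈ toL LB, okB r par x)
    (hnd : ((toL LA ++ toL LB).map (fun x => (x.1, x.2.1))).Nodup)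
    (hc : ∀ s < 15625, one 15625 78125 65536 tb0 tb1 Tx Ty LA LB r s = true)
    (hTx : ∀ v, v % 3 = tx → tab v = get Tx (v % 15625))
    (hTy : ∀ v, v % 3 = ty → tab v = get Ty (v % 15625))
    (hpar : (ty = 1 ∧ par = 1) ∨ (ty = 2 ∧ par = 0))
    (hxy : ∀ v : ℕ, ¬ 3 ∣ v → v % 3 = tx ∨ v % 3 = ty) {v : ℕ} (hv : Nat.Coprime v 30)
    (hr : v % 5 = r) :
    (tab v : ℝ) ≤
      ∑ p ∈ ch SS v, (5 / (2 ^ p.1 * 3 ^ p.2 : ℝ)) ^ (15 / 17 : ℝ) * tab (cv p v) := by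
  obtain ⟨hv2, hv3, hv5⟩ := not_dvd_of_coprime hv
  have hu : r + 5 * (v % 78125 / 5) = v % 78125 := by omega
  have hcu := one_imp (hc (v % 78125 / 5) (by omega))
  rw [hu] at hcu
  have hmod : v % 78125 % 15625 = v % 15625 := by omega
  rw [hmod] at hcu
  -- the entries of LA
  have eA : sm 78125 tb0 LA (v % 78125) =
      ((toL LA).map (fun x => x.2.2.2 * tab (cv (x.1, x.2.1) v))).sum := by
    rw [sm_eq]
    congr 1
    refine List.map_congr_left fun x hx => ?_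
    obtain ⟨h1, h2, h3, h4, h5, h6, h7⟩ := hA x hx
    obtain ⟨e1, e2, e3⟩ := entry (b := x.2.1) hr h1 h5 h6
    rw [e2]
    have := mod_three_one h2 e1
    unfold tab
    rw [if_pos this]
  have lA : ∀ x ∈ toL LA, 5 * cv (x.1, x.2.1) v + 1 = 2 ^ x.1 * 3 ^ x.2.1 * v ∧
      ¬ 2 ∣ cv (x.1, x.2.1) v ∧ ¬ 3 ∣ cv (x.1, x.2.1) v ∧ x.1 < 14 ∧ x.2.1 < 8 ∧
      x.2.2.2 ^ 17 * (2 ^ x.1 * 3 ^ x.2.1) ^ 15 ≤ 5 ^ 15 * 65536 ^ 17 := by
    intro x hx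
    obtain ⟨h1, h2, h3, h4, h5, h6, h7⟩ := hA x hx
    obtain ⟨e1, e2, e3⟩ := entry (b := x.2.1) hr h1 h5 h6
    have := mod_three_one h2 e1
    exact ⟨e1, e3, by omega, h3, h4, h7⟩
  rcases hxy v hv3 with ht | ht
  · have h1 := hcu.1
    rw [← hTx v ht, eA] at h1
    have h2 := sum_le (v := v) (toL LA) (by
      rw [List.map_append] at hnd
      exact (List.nodup_append.1 hnd).1) lA
    have h3 : ((65536 * tab v : ℕ) : ℝ) ≤
        (((toL LA).map (fun x => x.2.2.2 * tab (cv (x.1, x.2.1) v))).sum : ℕ) := by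
      exact_mod_cast h1
    rw [Nat.cast_mul] at h3
    have h4 := h3.trans h2
    have h5 : ((65536 : ℕ) : ℝ) = 65536 := by norm_num
    rw [h5] at h4
    linarith
  · have h1 := hcu.2
    have eB : sm 78125 tb1 LB (v % 78125) =
        ((toL LB).map (fun x => x.2.2.2 * tab (cv (x.1, x.2.1) v))).sum := by
      rw [sm_eq]
      congr 1
      refine List.map_congr_left fun x hx => ?_
      obtain ⟨h1, h2, h3, h4, h5, h6, h7⟩ := hB x hx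
      obtain ⟨e1, e2, e3⟩ := entry (b := x.2.1) hr h1 h5 h6
      rw [e2]
      rw [h2] at e1 ⊢
      have := mod_three_two (v := v) (a := x.1) (by
        rcases hpar with ⟨p1, p2⟩ | ⟨p1, p2⟩
        · exact Or.inl ⟨ht.trans p1, h4.trans p2⟩
        · exact Or.inr ⟨ht.trans p1, h4.trans p2⟩) e1
      unfold tab
      rw [if_neg (by omega)]
    have lB : ∀ x ∈ toL LB, 5 * cv (x.1, x.2.1) v + 1 = 2 ^ x.1 * 3 ^ x.2.1 * v ∧
        ¬ 2 ∣ cv (x.1, x.2.1) v ∧ ¬ 3 ∣ cv (x.1, x.2.1) v ∧ x.1 < 14 ∧ x.2.1 < 8 ∧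
        x.2.2.2 ^ 17 * (2 ^ x.1 * 3 ^ x.2.1) ^ 15 ≤ 5 ^ 15 * 65536 ^ 17 := by
      intro x hx
      obtain ⟨h1, h2, h3, h4, h5, h6, h7⟩ := hB x hx
      obtain ⟨e1, e2, e3⟩ := entry (b := x.2.1) hr h1 h5 h6
      have e1' := e1
      rw [h2] at e1'
      have := mod_three_two (v := v) (a := x.1) (by
        rcases hpar with ⟨p1, p2⟩ | ⟨p1, p2⟩
        · exact Or.inl ⟨ht.trans p1, h4.trans p2⟩
        · exact Or.inr ⟨ht.trans p1, h4.trans p2⟩) e1'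
      rw [← h2] at this
      exact ⟨e1, e3, by omega, h3, by omega, h7⟩
    rw [← hTy v ht, eA, eB, ← List.sum_append, ← List.map_append] at h1
    have h2 := sum_le (v := v) (toL LA ++ toL LB) hnd (by
      intro x hx
      rcases List.mem_append.1 hx with h | h
      · exact lA x h
      · exact lB x h)
    have h3 : ((65536 * tab v : ℕ) : ℝ) ≤
        (((toL LA ++ toL LB).map (fun x => x.2.2.2 * tab (cv (x.1, x.2.1) v))).sum : ℕ) := by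
      exact_mod_cast h1
    rw [Nat.cast_mul] at h3
    have h4 := h3.trans h2
    have h5 : ((65536 : ℕ) : ℝ) = 65536 := by norm_num
    rw [h5] at h4
    linarith

end Pool.Agent.Lib.MP_a4658c_nt.KL
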