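import Mathlib

/-!
MP_a4658c_nt, counting the integers whose Kakutani orbit contains a given number: the inverse tree.
-/

set_option autoImplicit false

namespace Pool.Agent.Lib.MP_a4658c_nt.KL

/-- the Kakutani map -/
def kak : ℕ → ℕ := fun m : ℕ => if 2 ∣ m then m / 2 else if 3 ∣ m then m / 3 else 5 * m + 1

theorem kak_two (n : ℕ) : kak (2 * n) = n := by
  unfold kak
  have h : 2 ∣ 2 * n := ⟨n, rfl⟩
  simp [h]

theorem kak_three {n : ℕ} (hn : ¬ 2 ∣ n) : kak (3 * n) = n := by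
  unfold kak
  have h : 3 ∣ 3 * n := ⟨n, rfl⟩
  have h2 : ¬ 2 ∣ 3 * n := by omega
  simp [h, h2]

theorem kak_unit {n : ℕ} (h2 : ¬ 2 ∣ n) (h3 : ¬ 3 ∣ n) : kak n = 5 * n + 1 := by
  unfold kak
  simp [h2, h3]

/-- the orbit of `n` contains `m` -/
def Reach (n m : ℕ) : Prop := ∃ k : ℕ, kak^[k] n = m

theorem Reach.refl (n : ℕ) : Reach n n := ⟨0, rfl⟩

theorem Reach.trans {a b c : ℕ} (h : Reach a b) (h' : Reach b c) : Reach a c := by
  obtain ⟨k, rfl⟩ := h
  obtain ⟨l, rfl⟩ := h'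
  exact ⟨l + k, by rw [Function.iterate_add_apply]⟩

theorem Reach.step {a b : ℕ} (h : kak a = b) : Reach a b := ⟨1, by simpa using h⟩

theorem reach_two_pow (a n : ℕ) : Reach (2 ^ a * n) n := by
  induction a with
  | zero => simpa using Reach.refl n
  | succ a ih =>
    refine Reach.trans (Reach.step ?_) ih
    rw [pow_succ, mul_comm (2 ^ a) 2, mul_assoc]
    exact kak_two _

theorem reach_three_pow (b : ℕ) {n : ℕ} (hn : ¬ 2 ∣ n) : Reach (3 ^ b * n) n := by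
  induction b with
  | zero => simpa using Reach.refl n
  | succ b ih =>
    refine Reach.trans (Reach.step ?_) ih
    rw [pow_succ, mul_comm (3 ^ b) 3, mul_assoc]
    apply kak_three
    intro h
    rcases (Nat.Prime.dvd_mul Nat.prime_two).1 h with h | h
    · have := Nat.Prime.dvd_of_dvd_pow Nat.prime_two h
      omega
    · exact hn h

theorem reach_child {w v a b : ℕ} (hw2 : ¬ 2 ∣ w) (hw3 : ¬ 3 ∣ w) (hv : ¬ 2 ∣ v)
    (h : 5 * w + 1 = 2 ^ a * 3 ^ b * v) : Reach w v := by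
  refine Reach.trans (Reach.step (kak_unit hw2 hw3)) ?_
  rw [h, mul_assoc]
  exact Reach.trans (reach_two_pow a _) (reach_three_pow b hv)

/-- the accelerated map: the part of `5 w + 1` prime to `6` -/
def acc (w : ℕ) : ℕ := ordCompl[3] (ordCompl[2] (5 * w + 1))

theorem ordCompl_pow_mul {p a n : ℕ} (hp : p.Prime) (hn : ¬ p ∣ n) :
    ordCompl[p] (p ^ a * n) = n := by
  have hn0 : n ≠ 0 := by
    rintro rfl
    exact hn (dvd_zero p)
  have h1 : (p ^ a * n).factorization p = a := by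
    rw [Nat.factorization_mul (pow_ne_zero _ hp.ne_zero) hn0, Finsupp.add_apply,
      Nat.factorization_pow, Finsupp.smul_apply, hp.factorization_self,
      Nat.factorization_eq_zero_of_not_dvd hn]
    simp
  rw [h1, Nat.mul_div_cancel_left _ (pow_pos hp.pos a)]

theorem acc_eq {w v a b : ℕ} (hv2 : ¬ 2 ∣ v) (hv3 : ¬ 3 ∣ v)
    (h : 5 * w + 1 = 2 ^ a * 3 ^ b * v) : acc w = v := by
  unfold acc
  rw [h, mul_assoc, ordCompl_pow_mul Nat.prime_two, ordCompl_pow_mul Nat.prime_three hv3]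
  intro h
  rcases (Nat.Prime.dvd_mul Nat.prime_two).1 h with h | h
  · have := Nat.Prime.dvd_of_dvd_pow Nat.prime_two h
    omega
  · exact hv2 h

/-- two different preimages cannot both lie on the forward orbit -/
theorem orbit_lemma {α : Type*} (f : α → α) {m u v : α} {d e : ℕ} (hu : f^[d] m = u)
    (hv : f^[e] m = v) (hfu : f u = m) (hfv : f v = m) : u = v := by
  have h1 : f^[d + 1] m = m := by rw [Function.iterate_succ_apply', hu, hfu]
  have h2 : f^[e + 1] m = m := by rw [Function.iterate_succ_apply', hv, hfv]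
  have h1' : ∀ k, f^[(d + 1) * k] m = m := by
    intro k
    induction k with
    | zero => rfl
    | succ k ih => rw [Nat.mul_succ, Function.iterate_add_apply, h1, ih]
  have h2' : ∀ k, f^[(e + 1) * k] m = m := by
    intro k
    induction k with
    | zero => rfl
    | succ k ih => rw [Nat.mul_succ, Function.iterate_add_apply, h2, ih]
  have e1 : f^[(d + 1) * (e + 1) - 1] m = u := by
    have : (d + 1) * (e + 1) - 1 = d + (d + 1) * e := by
      rw [Nat.mul_succ]; omega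
    rw [this, Function.iterate_add_apply, h1', hu]
  have e2 : f^[(d + 1) * (e + 1) - 1] m = v := by
    have : (d + 1) * (e + 1) - 1 = e + (e + 1) * d := by
      rw [mul_comm (d + 1), Nat.mul_succ]; omega
    rw [this, Function.iterate_add_apply, h2', hv]
  rw [← e1, e2]

theorem coprime_thirty {w : ℕ} (h2 : ¬ 2 ∣ w) (h3 : ¬ 3 ∣ w) (h5 : ¬ 5 ∣ w) :
    Nat.Coprime w 30 := by
  have e : (30 : ℕ) = 2 * 3 * 5 := by norm_num
  rw [e]
  refine Nat.Coprime.mul_right (Nat.Coprime.mul_right ?_ ?_) ?_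
  · exact ((Nat.Prime.coprime_iff_not_dvd Nat.prime_two).2 h2).symm
  · exact ((Nat.Prime.coprime_iff_not_dvd Nat.prime_three).2 h3).symm
  · exact ((Nat.Prime.coprime_iff_not_dvd Nat.prime_five).2 h5).symm

theorem not_dvd_of_coprime {w : ℕ} (h : Nat.Coprime w 30) : ¬ 2 ∣ w ∧ ¬ 3 ∣ w ∧ ¬ 5 ∣ w := by
  refine ⟨fun h' => ?_, fun h' => ?_, fun h' => ?_⟩
  · have := Nat.dvd_gcd h' (by norm_num : 2 ∣ 30)
    rw [h] at this
    omega
  · have := Nat.dvd_gcd h' (by norm_num : 3 ∣ 30)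
    rw [h] at this
    omega
  · have := Nat.dvd_gcd h' (by norm_num : 5 ∣ 30)
    rw [h] at this
    omega

/-- a root prime to 30, from which `m` is reached, and which is not on the orbit of its image -/
theorem exists_root {m : ℕ} (hm3 : 3 ∣ m) (hm5 : ¬ 5 ∣ m) :
    ∃ u m1 : ℕ, Nat.Coprime u 30 ∧ Reach u m ∧ acc u = m1 ∧ ∀ d : ℕ, acc^[d] m1 ≠ u := by
  have hm0 : m ≠ 0 := by
    rintro rfl
    exact hm5 (dvd_zero 5)
  obtain ⟨e, m', hm2', hm'⟩ := Nat.exists_eq_pow_mul_and_not_dvd hm0 2 (by norm_num)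
  have hm'0 : m' ≠ 0 := by
    rintro rfl
    exact hm2' (dvd_zero 2)
  obtain ⟨s, m1, hm13, hm⟩ := Nat.exists_eq_pow_mul_and_not_dvd hm'0 3 (by norm_num)
  have hm12 : ¬ 2 ∣ m1 := fun h => hm2' (hm ▸ Dvd.dvd.mul_left h _)
  obtain ⟨a, ha1, ha⟩ : ∃ a : ℕ, 1 ≤ a ∧ 2 ^ a * m % 5 = 1 := by
    have h5 : m % 5 = 1 ∨ m % 5 = 2 ∨ m % 5 = 3 ∨ m % 5 = 4 := by omega
    rcases h5 with h | h | h | h
    · exact ⟨4, by norm_num, by omega⟩
    · exact ⟨3, by norm_num, by omega⟩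
    · exact ⟨1, by norm_num, by omega⟩
    · exact ⟨2, by norm_num, by omega⟩
  -- the property of a good candidate
  have key : ∀ j w : ℕ, 5 * w + 1 = 16 ^ j * (2 ^ a * m) → ¬ 5 ∣ w →
      Nat.Coprime w 30 ∧ Reach w m ∧ acc w = m1 := by
    intro j w hw h5
    have h16 : (16 : ℕ) ^ j * (2 ^ a * m) = 2 ^ (4 * j + a) * m := by
      rw [pow_add, pow_mul]
      norm_num
      ring
    have h16' : (16 : ℕ) ^ j * (2 ^ a * m) = 2 ^ (4 * j + a + e) * 3 ^ s * m1 := by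
      rw [h16]
      conv_lhs => rw [hm', hm]
      ring
    have hw2 : ¬ 2 ∣ w := by
      intro h
      have h' : 2 ∣ 2 ^ (4 * j + a) * m :=
        Dvd.dvd.mul_right (dvd_pow_self 2 (by omega)) _
      rw [← h16, ← hw] at h'
      omega
    have hw3 : ¬ 3 ∣ w := by
      intro h
      have h' : 3 ∣ 2 ^ (4 * j + a) * m := Dvd.dvd.mul_left hm3 _
      rw [← h16, ← hw] at h'
      omega
    refine ⟨coprime_thirty hw2 hw3 h5, ?_, acc_eq hm12 hm13 (hw.trans h16')⟩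
    refine Reach.trans (Reach.step (kak_unit hw2 hw3)) ?_
    rw [hw, h16]
    exact reach_two_pow _ _
  -- three candidates
  obtain ⟨X, hX⟩ : ∃ X, X = 2 ^ a * m := ⟨_, rfl⟩
  rw [← hX] at ha
  obtain ⟨w0, hw0⟩ : ∃ w, 5 * w + 1 = X := ⟨X / 5, by omega⟩
  obtain ⟨w1, hw1⟩ : ∃ w, 5 * w + 1 = 16 * X := ⟨16 * X / 5, by omega⟩
  obtain ⟨w2, hw2⟩ : ∃ w, 5 * w + 1 = 256 * X := ⟨256 * X / 5, by omega⟩
  have k0 := key 0 w0 (by rw [← hX, hw0]; norm_num)
  have k1 := key 1 w1 (by rw [← hX, hw1]; norm_num)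
  have k2 := key 2 w2 (by rw [← hX, hw2]; norm_num)
  obtain ⟨u, v, huv, ⟨hu1, hu2, hu3⟩, hv1, hv2, hv3⟩ : ∃ u v : ℕ, u ≠ v ∧
      (Nat.Coprime u 30 ∧ Reach u m ∧ acc u = m1) ∧
      (Nat.Coprime v 30 ∧ Reach v m ∧ acc v = m1) := by
    by_cases h0 : 5 ∣ w0
    · have h1 : ¬ 5 ∣ w1 := by omega
      have h2 : ¬ 5 ∣ w2 := by omega
      exact ⟨w1, w2, by omega, k1 h1, k2 h2⟩
    · by_cases h1 : 5 ∣ w1
      · have h2 : ¬ 5 ∣ w2 := by omega
        exact ⟨w0, w2, by omega, k0 h0, k2 h2⟩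
      · exact ⟨w0, w1, by omega, k0 h0, k1 h1⟩
  by_cases h : ∀ d : ℕ, acc^[d] m1 ≠ u
  · exact ⟨u, m1, hu1, hu2, hu3, h⟩
  · rw [not_forall] at h
    obtain ⟨d, hd⟩ := h
    rw [not_not] at hd
    refine ⟨v, m1, hv1, hv2, hv3, fun e he => huv ?_⟩
    exact orbit_lemma acc hd he hu3 hv3

/-- every odd number or multiple of 3 is reached from such a root, if it is prime to 5 -/
theorem exists_root' {m : ℕ} (hm : ¬ 2 ∣ m ∨ 3 ∣ m) (hm5 : ¬ 5 ∣ m) :
    ∃ u m1 : ℕ, Nat.Coprime u 30 ∧ Reach u m ∧ acc u = m1 ∧ ∀ d : ℕ, acc^[d] m1 ≠ u := by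
  rcases hm with h | h
  · obtain ⟨u, m1, h1, h2, h3, h4⟩ := exists_root (m := 3 * m) ⟨m, rfl⟩ (by omega)
    exact ⟨u, m1, h1, h2.trans (Reach.step (kak_three h)), h3, h4⟩
  · exact exists_root h hm5

end Pool.Agent.Lib.MP_a4658c_nt.KL
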